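import Pool.Agent.H11Cara.Final

/-!
MP_2482e1_an, Q1: for all `n ≥ 2` and `m ≥ 2`,
`C_{m,n} = sqrt ((m+1)^(m+1) / m^m)`, and the supremum is attained.
-/

open Pool.Agent.H11Cara in
theorem Pool.Agent.Results.MP_2482e1_an.SharpBound.result :
    ∀ n : ℕ, 2 ≤ n → ∀ m : ℕ, 2 ≤ m →
      C m n = √(((m : ℝ) + 1) ^ (m + 1) / (m : ℝ) ^ m) ∧
      (∀ h ∈ Caratheodory n, IsGreatest (values h m) (polyNorm h m) ∧ polyNorm h m ≤ C m n) ∧
      (∃ h ∈ Caratheodory n, polyNorm h m = C m n) :=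
  fun n hn m hm => final n hn m hm
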